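import Pool.Agent.LE.StmtsZ
import Pool.Agent.Helper15_LEW.SMX

/-!
# Row SMS: the multiscale induction with a small loss in the rate
-/

set_option autoImplicit false

open MeasureTheory ProbabilityTheory Function Filter

open scoped ENNReal BigOperators Topology

noncomputable section

namespace Pool.Agent.LE.H24Z

open Pool.Agent.Anderson Pool.Agent.Loc Pool.Agent.Mob Pool.Agent.Helper54.Bal
  Pool.Agent.LE Pool.Agent.LE.H15 Pool.Agent.LE.H15X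

theorem sms_c1 {d : ℕ} {x W s C1 Q T : ℝ} (hx0 : 0 ≤ x) (hs3 : x ≤ W * s ^ 2)
    (hC1 : C1 = 2 * d * 3 ^ d) (h1 : C1 * W ^ d * s ^ (2 * d) ≤ Real.exp Q) (hQ : Q ≤ T) :
    2 * (d : ℝ) * (3 * x) ^ d ≤ Real.exp T := by
  calc 2 * (d : ℝ) * (3 * x) ^ d ≤ 2 * d * (3 * (W * s ^ 2)) ^ d := by gcongr
    _ = C1 * W ^ d * s ^ (2 * d) := by rw [hC1, mul_pow, mul_pow, ← pow_mul]; ring
    _ ≤ Real.exp Q := h1
    _ ≤ Real.exp T := Real.exp_le_exp.2 hQ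

theorem sms_c2 {d : ℕ} {x y n W s C2 Q T : ℝ} (hW0 : 0 ≤ W) (hx0 : 0 ≤ x) (hy0 : 0 ≤ y) (hn : 0 ≤ n)
    (hys : y ≤ s) (hs3 : x ≤ W * s ^ 2)
    (hC2 : C2 = 8 * (d : ℝ) ^ 2 * (33 * n) ^ d * 3 ^ d)
    (h1 : C2 * W ^ (2 * d) * s ^ (5 * d) ≤ Real.exp Q) (hQ : Q ≤ T) :
    8 * (d : ℝ) ^ 2 * (33 * (y * n) * x) ^ d * (3 * x) ^ d ≤ Real.exp T := by
  have hs0 : 0 ≤ s := hy0.trans hys
  calc 8 * (d : ℝ) ^ 2 * (33 * (y * n) * x) ^ d * (3 * x) ^ d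
      ≤ 8 * (d : ℝ) ^ 2 * (33 * (s * n) * (W * s ^ 2)) ^ d * (3 * (W * s ^ 2)) ^ d := by
        gcongr
    _ = C2 * W ^ (2 * d) * s ^ (5 * d) := by
        rw [hC2]
        have e1 : 33 * (s * n) * (W * s ^ 2) = (33 * n) * (W * s ^ 3) := by ring
        rw [e1, mul_pow (33 * n : ℝ), mul_pow W, mul_pow (3 : ℝ), mul_pow W, ← pow_mul,
          ← pow_mul, show 5 * d = 3 * d + 2 * d by ring, pow_add s, show 2 * d = d + d by ring,
          pow_add W]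
        ring
    _ ≤ Real.exp Q := h1
    _ ≤ Real.exp T := Real.exp_le_exp.2 hQ

theorem sms_c3 {d : ℕ} {x y n ρ W s C3 Q T : ℝ} (hx0 : 0 ≤ x) (hy0 : 0 ≤ y) (hn : 0 ≤ n)
    (hρ0 : 0 ≤ ρ) (hρ : ρ ≤ W) (hys : y ≤ s) (hs3 : x ≤ W * s ^ 2)
    (hC3 : C3 = 24 * (5 * n ^ 3) ^ (3 * d + 1))
    (h1 : C3 * W ^ (3 * d + 2) * s ^ (5 * (3 * d + 1)) ≤ Real.exp Q) (hQ : Q ≤ T) :
    24 * ρ * (5 * ((y * n) ^ 3 * x)) ^ (3 * d + 1) ≤ Real.exp T := by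
  have hs0 : 0 ≤ s := hy0.trans hys
  have hW0 : 0 ≤ W := hρ0.trans hρ
  calc 24 * ρ * (5 * ((y * n) ^ 3 * x)) ^ (3 * d + 1)
      ≤ 24 * W * (5 * ((s * n) ^ 3 * (W * s ^ 2))) ^ (3 * d + 1) := by
        gcongr
    _ = C3 * W ^ (3 * d + 2) * s ^ (5 * (3 * d + 1)) := by
        rw [hC3]
        have e1 : 5 * ((s * n) ^ 3 * (W * s ^ 2)) = (5 * n ^ 3) * (W * s ^ 5) := by ring
        rw [e1, mul_pow (5 * n ^ 3), mul_pow W, ← pow_mul,
          show 3 * d + 2 = (3 * d + 1) + 1 by ring, pow_succ W]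
        ring
    _ ≤ Real.exp Q := h1
    _ ≤ Real.exp T := Real.exp_le_exp.2 hQ

/-- SMS -/
theorem sms (smp : SmpStmt) : SmsStmt := by
  intro d ε hd hε hε1
  have hd1 : (1 : ℝ) ≤ d := by exact_mod_cast hd
  obtain ⟨N0, hN0⟩ := exists_nat_ge (400 / ε)
  have hN400 : (400 : ℝ) ≤ N0 := by
    have h1 : 400 ≤ 400 / ε := by
      rw [le_div_iff₀ hε]
      linarith only [hε1]
    exact h1.trans hN0
  have hN400n : 400 ≤ N0 := by exact_mod_cast hN400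
  have hNpos : (0 : ℝ) < N0 := by linarith only [hN400]
  obtain ⟨x0, hx0⟩ : ∃ x0 : ℝ, x0 = 2 * d * (56 * (N0 : ℝ) ^ 6 + 3) := ⟨_, rfl⟩
  have hx00 : 0 ≤ x0 := by rw [hx0]; positivity
  obtain ⟨C1, hC1⟩ : ∃ C1 : ℝ, C1 = 2 * d * 3 ^ d := ⟨_, rfl⟩
  obtain ⟨C2, hC2⟩ : ∃ C2 : ℝ, C2 = 8 * (d : ℝ) ^ 2 * (33 * N0) ^ d * 3 ^ d := ⟨_, rfl⟩
  obtain ⟨C3, hC3⟩ : ∃ C3 : ℝ, C3 = 24 * (5 * (N0 : ℝ) ^ 3) ^ (3 * d + 1) := ⟨_, rfl⟩
  have hC10 : 0 ≤ C1 := by rw [hC1]; positivity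
  have hC20 : 0 ≤ C2 := by rw [hC2]; positivity
  have hC30 : 0 ≤ C3 := by rw [hC3]; positivity
  obtain ⟨B, hB⟩ : ∃ B : ℝ, B = 32 + 2 * x0 + (C1 + d + 2 * d) + (C2 + 2 * d + 5 * d) +
    (C3 + (3 * d + 2) + 5 * (3 * d + 1)) := ⟨_, rfl⟩
  have hB32 : 32 ≤ B := by linarith only [hB, hx00, hC10, hC20, hC30, hd1]
  have hB0 : 0 < B := by linarith only [hB32]
  have hBx0 : 2 * x0 ≤ B := by linarith only [hB, hx00, hC10, hC20, hC30, hd1]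
  have hB1 : C1 + (d : ℕ) + ((2 * d : ℕ) : ℝ) ≤ B := by
    push_cast
    linarith only [hB, hx00, hC10, hC20, hC30, hd1]
  have hB2 : C2 + ((2 * d : ℕ) : ℝ) + ((5 * d : ℕ) : ℝ) ≤ B := by
    push_cast
    linarith only [hB, hx00, hC10, hC20, hC30, hd1]
  have hB3 : C3 + ((3 * d + 2 : ℕ) : ℝ) + ((5 * (3 * d + 1) : ℕ) : ℝ) ≤ B := by
    push_cast
    linarith only [hB, hx00, hC10, hC20, hC30, hd1]
  have hBε : 32 * B ≤ 32 * B / ε := by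
    rw [le_div_iff₀ hε]
    exact mul_le_of_le_one_right (by linarith only [hB0]) hε1.le
  refine ⟨32 * B / ε, Real.exp (-x0), by linarith only [hBε, hB32], Real.exp_pos _, ?_⟩
  intro σ E m L hσ hσ1 hm hm1 hL hcond hP
  have hσ0 : 0 < |σ| := abs_pos.2 hσ
  have hLr : (1 : ℝ) ≤ L := by exact_mod_cast hL
  have hεm : 0 < ε * m := mul_pos hε hm
  obtain ⟨W, hW⟩ : ∃ W : ℝ, W = L / (|σ| * m) := ⟨_, rfl⟩
  rw [← hW] at hcond
  have hden : |σ| * m ≤ 1 := mul_le_one₀ hσ1 hm.le hm1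
  have hden0 : 0 < |σ| * m := mul_pos hσ0 hm
  have hLW : (L : ℝ) ≤ W := by
    rw [hW, le_div_iff₀ hden0]
    exact mul_le_of_le_one_right (by linarith only [hLr]) hden
  have hW1 : 1 ≤ W := hLr.trans hLW
  have hσW : 1 / |σ| ≤ W := by
    rw [hW, div_le_div_iff₀ hσ0 hden0, one_mul, mul_comm |σ| m]
    exact mul_le_mul_of_nonneg_right (hm1.trans hLr) hσ0.le
  have hlogW := Real.log_nonneg hW1
  have hQ1 : 1 ≤ 1 + Real.log W := by linarith only [hlogW]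
  have hfac := scale_facts (N0 := N0) (by omega) hL hm hW1 hcond hLW
  have hBL' : 32 * B / ε ≤ m * L := by
    have h1 : 32 * B / ε * 1 ≤ 32 * B / ε * (1 + Real.log W) :=
      mul_le_mul_of_nonneg_left hQ1 (by linarith only [hBε, hB0])
    linarith only [h1, hcond]
  have hBL : 32 * B ≤ m * L := hBε.trans hBL'
  have hBmL : 32 * B ≤ ε * m * L := by
    rw [div_le_iff₀ hε] at hBL'
    linarith only [hBL']
  have hQs : ∀ s : ℝ, 1 ≤ s → 0 ≤ B * (1 + Real.log W) * s := fun s hs =>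
    mul_nonneg (mul_nonneg hB0.le (by linarith only [hQ1])) (by linarith only [hs])
  have hfacB : ∀ s x : ℝ, 1 ≤ s → ∀ k : ℕ, 32 * B / ε * (1 + Real.log W) * s ≤ m / 2 ^ k * x →
      32 * (B * (1 + Real.log W) * s) ≤ ε * (m / 2 ^ k * x) ∧
      32 * (B * (1 + Real.log W) * s) ≤ m / 2 ^ k * x := by
    intro s x hs k h
    have e1 : 32 * B / ε * (1 + Real.log W) * s = 32 * (B * (1 + Real.log W) * s) / ε := by ring
    rw [e1] at h
    have h0 := hQs s hs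
    have h2 : 32 * (B * (1 + Real.log W) * s) ≤ 32 * (B * (1 + Real.log W) * s) / ε := by
      rw [le_div_iff₀ hε]
      exact mul_le_of_le_one_right (by linarith only [h0]) hε1.le
    refine ⟨?_, h2.trans h⟩
    rw [div_le_iff₀ hε] at h
    linarith only [h]
  have hmk : ∀ k : ℕ, m / 2 ^ k * (scl N0 L k : ℝ) ≤ m * (scl N0 L k : ℝ) := fun k =>
    mul_le_mul_of_nonneg_right (div_le_self hm.le (one_le_pow₀ (by norm_num)))
      (Nat.cast_nonneg _)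
  have hmx : ∀ k : ℕ, 0 ≤ m * (scl N0 L k : ℝ) := fun k => mul_nonneg hm.le (Nat.cast_nonneg _)
  have g1 : ε * m < m := by
    have := mul_lt_mul_of_pos_right hε1 hm
    linarith only [this]
  have g2 : 400 * m / (ε * m) ≤ N0 := by
    rw [div_le_iff₀ hεm]
    rw [div_le_iff₀ hε] at hN0
    have := mul_le_mul_of_nonneg_right hN0 hm.le
    linarith only [this]
  have g3 : 64 * (2 * d * (56 * (N0 : ℝ) ^ 6 + 3)) ≤ m * L := by
    rw [← hx0]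
    linarith only [hBx0, hBL]
  have g4 : 16 * m ≤ ε * m * L := by linarith only [hm1, hBmL, hB32]
  have c1 : ∀ k, 2 * (d : ℝ) * (3 * (scl N0 L k : ℝ)) ^ d ≤
      Real.exp (ε * m / 16 / 2 ^ k * (scl N0 L k : ℝ)) := by
    intro k
    obtain ⟨s, hs1, hs2, hs3, hs4⟩ := hfac k
    have h5 := (hfacB s _ hs1 k hs4).1
    have h6 := hQs s hs1
    refine sms_c1 (Nat.cast_nonneg _) hs3 hC1 (grow d (2 * d) hC10 hW1 hs1 hB1) ?_
    have h2 : ε * m / 16 / 2 ^ k * (scl N0 L k : ℝ) = (ε * (m / 2 ^ k * (scl N0 L k : ℝ))) / 16 := by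
      ring
    rw [h2]
    linarith only [h5, h6]
  have c2 : ∀ k, 8 * (d : ℝ) ^ 2 * (33 * (2 ^ k * N0) * (scl N0 L k : ℝ)) ^ d *
      (3 * (scl N0 L k : ℝ)) ^ d ≤ Real.exp (3 * m / 8 * (scl N0 L k : ℝ)) := by
    intro k
    obtain ⟨s, hs1, hs2, hs3, hs4⟩ := hfac k
    have h5 := (hfacB s _ hs1 k hs4).2
    have h6 := hQs s hs1
    refine sms_c2 (by linarith only [hW1]) (Nat.cast_nonneg _) (pow_nonneg (by norm_num) k) hNpos.le hs2 hs3 hC2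
      (grow (2 * d) (5 * d) hC20 hW1 hs1 hB2) ?_
    linarith only [h5, h6, hmk k, hmx k]
  have c3 : ∀ k, 24 * (1 / |σ|) * (5 * (((2 : ℝ) ^ k * N0) ^ 3 * (scl N0 L k : ℝ))) ^ (3 * d + 1) ≤
      Real.exp (m / 16 * (scl N0 L k : ℝ)) := by
    intro k
    obtain ⟨s, hs1, hs2, hs3, hs4⟩ := hfac k
    have h5 := (hfacB s _ hs1 k hs4).2
    have h6 := hQs s hs1
    refine sms_c3 (Nat.cast_nonneg _) (pow_nonneg (by norm_num) k) hNpos.le
      (one_div_pos.2 hσ0).le hσW hs2 hs3 hC3 (grow (3 * d + 2) (5 * (3 * d + 1)) hC30 hW1 hs1 hB3) ?_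
    linarith only [h5, h6, hmk k, hmx k]
  obtain ⟨ℓ, μ, p, hℓ0, hμ0, hp0, hstep, L₁, hlast⟩ := smn_core d (1 / |σ|) m (ε * m) 1 N0 L hd
    (one_div_pos.2 hσ0) hεm g1 (by omega) g2 g3 g4 c1 c2 c3
  rw [← hx0] at hp0
  have hν := bddDens_gl hσ
  have hk : ∀ k, PP d (gl σ) {V | ¬ AllGoodC V 0 (ℓ k) (μ k) E} ≤ ENNReal.ofReal (p k) := by
    intro k
    induction k with
    | zero =>
      rw [hℓ0, hμ0, hp0]
      exact hP
    | succ k ih =>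
      exact H3R.stepN_apply smp (gl σ) hν E (hstep k).1 (hstep k).2.1 (hstep k).2.2 ih
  have hm2 : m - ε * m = (1 - ε) * m := by ring
  have hev : ∀ᶠ M : ℕ in atTop, PP d (gl σ) {V | ¬ AllGoodC V 0 M ((1 - ε) * m) E} ≤
      ENNReal.ofReal ((M : ℝ) ^ (-(1 : ℝ))) := by
    filter_upwards [eventually_ge_atTop L₁] with M hM
    obtain ⟨k, hs⟩ := hlast M hM
    rw [hm2] at hs
    exact H3R.stepN_apply smp (gl σ) hν E (hstep k).1 (hstep k).2.1 hs (hk k)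
  have hlim : Tendsto (fun M : ℕ => ENNReal.ofReal ((M : ℝ) ^ (-(1 : ℝ)))) atTop (𝓝 0) := by
    have h1 := (tendsto_rpow_neg_atTop (y := 1) one_pos).comp
      (tendsto_natCast_atTop_atTop (R := ℝ))
    have h2 := (ENNReal.continuous_ofReal.tendsto 0).comp h1
    rw [ENNReal.ofReal_zero] at h2
    exact h2
  exact tendsto_of_tendsto_of_tendsto_of_le_of_le' tendsto_const_nhds hlim
    (Eventually.of_forall fun _ => zero_le) hev

end Pool.Agent.LE.H24Z
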